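import Pool.Agent.Helper14.TK.StA

/-!
# Project T3K, module BASE: integral family of symbols, even half, determinant prime to three
-/

set_option autoImplicit false

namespace Pool.Agent.Helper29.TA

open Pool.Agent.Helper14.TK Pool.Agent.Helper14.T3 Pool.Agent.Helper14.CV Pool.Agent.Helper14.W3
open Pool.Agent.Helper78.W3 Pool.Agent.Helper28.T3E
open Pool.Agent.Helper14.TT (eXb)

/-! ### transport of an integral symbol -/

/-- The potential `G(3^r p, q)`. -/
private def Gi (r : ℕ) (G : ℤ → ℤ → ℤ) : ℤ → ℤ → ℤ := fun p q => G (3 ^ r * p) q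

private lemma three_or (r : ℕ) {p q : ℤ} (h : p ≠ 0 ∨ q ≠ 0) : (3 ^ r * p ≠ 0 ∨ q ≠ 0) := by
  rcases h with h0 | h0
  · exact Or.inl (mul_ne_zero (by positivity) h0)
  · exact Or.inr h0

private lemma sym_Gi {r s : ℕ} {G : ℤ → ℤ → ℤ} (h : Sym3 r s G) : Sym3 0 (r + s) (Gi r G) := by
  refine ⟨?_, ?_⟩
  · intro k p q hk hpq
    have e := h.1 k (3 ^ r * p) q hk (three_or r hpq)
    have e1 : 3 ^ r * (k * p) = k * (3 ^ r * p) := by ring
    simp only [Gi]
    rw [e1, e]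
  · intro a b c d hdet _ hc
    obtain ⟨c', hc'⟩ := hc
    obtain ⟨k, hk⟩ := h.2 a (3 ^ r * b) (3 ^ s * c') d
      (by rw [← hdet, hc', pow_add]; ring) (Dvd.intro _ rfl) (Dvd.intro _ rfl)
    refine ⟨k, ?_⟩
    intro p q hpq
    have e := hk (3 ^ r * p) q (three_or r hpq)
    simp only [act, Gi] at e ⊢
    have e1 : 3 ^ r * (a * p + b * q) = a * (3 ^ r * p) + 3 ^ r * b * q := by ring
    have e2 : c * p + d * q = 3 ^ s * c' * (3 ^ r * p) + d * q := by
      rw [hc', pow_add]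
      ring
    rw [e1, e2, e]

private lemma Tl_Gi (l r : ℕ) (G : ℤ → ℤ → ℤ) : Tl l 1 (Gi r G) = Gi r (Tl l (3 ^ r) G) := by
  funext p q
  simp only [Tl, Gi]
  congr 1
  · congr 1
    ring
  · refine Finset.sum_congr rfl ?_
    intro j _
    congr 1
    ring

private lemma Gi_add (r : ℕ) (G H : ℤ → ℤ → ℤ) : Gi r (G + H) = Gi r G + Gi r H := rfl

private lemma Gi_sub (r : ℕ) (G H : ℤ → ℤ → ℤ) : Gi r (G - H) = Gi r G - Gi r H := rfl

private lemma Bo_Gi (r : ℕ) (G : ℤ → ℤ → ℤ) : Bo 1 (Gi r G) = Gi r (Bo (3 ^ r) G) := by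
  unfold Bo
  rw [Gi_sub, Gi_add, Tl_Gi, Tl_Gi, Tl_Gi]

private lemma homog_Tl {G : ℤ → ℤ → ℤ} (l : ℕ) (hl : 0 < l) (m : ℤ) (h : Homog G) :
    Homog (Tl l m G) := by
  intro k p q hk hpq
  have hl0 : (l : ℤ) ≠ 0 := by exact_mod_cast hl.ne'
  simp only [Tl]
  congr 1
  · have e := h k (l * p) q hk (by
      rcases hpq with h0 | h0
      · exact Or.inl (mul_ne_zero hl0 h0)
      · exact Or.inr h0)
    rw [← e]
    congr 1
    ring
  · refine Finset.sum_congr rfl ?_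
    intro j _
    have e := h k (p + m * j * q) (l * q) hk (by
      by_cases hq : q = 0
      · left
        rcases hpq with h0 | h0
        · rw [hq, mul_zero, add_zero]
          exact h0
        · exact absurd hq h0
      · exact Or.inr (mul_ne_zero hl0 hq))
    rw [← e]
    congr 1
    · ring
    · ring

private lemma homog_Bo {G : ℤ → ℤ → ℤ} (m : ℤ) (h : Homog G) : Homog (Bo m G) := by
  have h7 := homog_Tl 7 (by norm_num) m h
  have h2 := homog_Tl 2 (by norm_num) m (homog_Tl 2 (by norm_num) m h)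
  intro k p q hk hpq
  unfold Bo
  simp only [Pi.sub_apply, Pi.add_apply]
  rw [h7 k p q hk hpq, h k p q hk hpq, h2 k p q hk hpq]

private lemma iter_Tl_Gi (l r : ℕ) (G : ℤ → ℤ → ℤ) (i : ℕ) :
    (Tl l 1)^[i] (Gi r G) = Gi r ((Tl l (3 ^ r))^[i] G) := by
  induction i with
  | zero => rfl
  | succ i ih => rw [Function.iterate_succ_apply', Function.iterate_succ_apply', ih, Tl_Gi]

private lemma iter_Bo_Gi (r : ℕ) (G : ℤ → ℤ → ℤ) (i : ℕ) :
    (Bo 1)^[i] (Gi r G) = Gi r ((Bo (3 ^ r))^[i] G) := by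
  induction i with
  | zero => rfl
  | succ i ih => rw [Function.iterate_succ_apply', Function.iterate_succ_apply', ih, Bo_Gi]

private lemma iter_homog_Tl {G : ℤ → ℤ → ℤ} (l : ℕ) (hl : 0 < l) (m : ℤ) (h : Homog G) (i : ℕ) :
    Homog ((Tl l m)^[i] G) := by
  induction i with
  | zero => exact h
  | succ i ih =>
    rw [Function.iterate_succ_apply']
    exact homog_Tl l hl m ih

private lemma iter_homog_Bo {G : ℤ → ℤ → ℤ} (m : ℤ) (h : Homog G) (i : ℕ) :
    Homog ((Bo m)^[i] G) := by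
  induction i with
  | zero => exact h
  | succ i ih =>
    rw [Function.iterate_succ_apply']
    exact homog_Bo m ih

private lemma ev_Gi (D : ℕ) {r s : ℕ} {G : ℤ → ℤ → ℤ} (hG : Sym3 r s G) (i j : ℕ) :
    evTb D 1 (Gi r G) i j = evTb D (3 ^ r) G i j := by
  unfold evTb
  rw [iter_Tl_Gi, iter_Bo_Gi]
  have hH : Homog ((Bo (3 ^ r))^[j] ((Tl 2 (3 ^ r))^[i] G)) :=
    iter_homog_Bo _ (iter_homog_Tl 2 (by norm_num) _ hG.1 i) j
  have e := hH (3 ^ r) 1 0 (by positivity) (Or.inl one_ne_zero)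
  rw [mul_zero] at e
  unfold eXb
  refine Finset.sum_congr rfl ?_
  intro a _
  simp only [Gi]
  rw [e, one_mul]

/-! ### the determinant -/

private theorem unit_det {ι : Type} [Fintype ι] [DecidableEq ι] (k1 k2 : ι → ℕ)
    (hinj : ∀ t u, k1 t = k1 u → k2 t = k2 u → t = u) (M : Matrix ι ι ℤ)
    (hd : ∀ t, ((M t t : ℤ) : ZMod 3) ≠ 0)
    (hM : ∀ t u, ((M t u : ℤ) : ZMod 3) ≠ 0 → k1 u < k1 t ∨ (k1 u = k1 t ∧ k2 u ≤ k2 t)) :
    ((M.det : ℤ) : ZMod 3) ≠ 0 := by
  have : Fact (Nat.Prime 3) := ⟨Nat.prime_three⟩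
  intro h0
  have h1 : (M.map (fun x : ℤ => (x : ZMod 3))).det = 0 := by
    have := Int.cast_det (R := ZMod 3) M
    rw [h0] at this
    exact this.symm
  obtain ⟨v, hv, hz⟩ := Matrix.exists_vecMul_eq_zero_iff.2 h1
  have hne : (Finset.univ.filter fun t => v t ≠ 0).Nonempty := by
    by_contra hc
    rw [Finset.not_nonempty_iff_eq_empty, Finset.filter_eq_empty_iff] at hc
    apply hv
    funext t
    simpa using hc (Finset.mem_univ t)
  obtain ⟨t0, ht0, hmax⟩ := Finset.exists_max_image _ (fun t => (toLex (k1 t, k2 t) : ℕ ×ₗ ℕ)) hne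
  have hz0 := congrFun hz t0
  rw [Matrix.vecMul, dotProduct] at hz0
  rw [Finset.sum_eq_single t0] at hz0
  · simp only [Matrix.map_apply, Pi.zero_apply] at hz0
    rcases mul_eq_zero.1 hz0 with h | h
    · exact (Finset.mem_filter.1 ht0).2 h
    · exact hd t0 h
  · intro t _ htn
    by_cases hvt : v t = 0
    · rw [hvt, zero_mul]
    · by_cases hm : ((M t t0 : ℤ) : ZMod 3) = 0
      · simp only [Matrix.map_apply, hm, mul_zero]
      · exfalso
        have h2 := hmax t (Finset.mem_filter.2 ⟨Finset.mem_univ _, hvt⟩)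
        simp only [Prod.Lex.le_iff, ofLex_toLex] at h2
        have h3 := hM t t0 hm
        apply htn
        apply hinj
        · omega
        · omega
  · intro h
    exact absurd (Finset.mem_univ _) h

private theorem core (D r s N n : ℕ) (hD : OkE D) (hr : 1 ≤ r) (hs : 1 ≤ s) (I : Finset (ℕ × ℕ))
    (hI : ∀ t ∈ I, t.1 / 2 + 1 + 3 * t.2 + 1 < 3 ^ r ∧ t.1 / 2 + 1 + t.2 < 3 ^ s) (hN : I.card = N)
    (hn : r + 1 + (s + 1) = n) (hTri : StTR) (hLif : StLI) :
    ∃ (G : Fin N → ℤ → ℤ → ℤ) (ij : Fin N → ℕ × ℕ), (∀ k, Sym3 0 n (G k)) ∧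
      ¬ (3 : ℤ) ∣ Matrix.det (Matrix.of fun k l => evTb D 1 (G k) (ij l).1 (ij l).2) := by
  have hD0 : D ≠ 0 := by
    have := hD.1
    omega
  have h1 : ∀ t : I, ∃ G : ℤ → ℤ → ℤ, Sym3 0 n G ∧
      (((evTb D 1 G t.1.1 t.1.2 : ℤ) : ZMod 3) ≠ 0) ∧
      ∀ i j, (((evTb D 1 G i j : ℤ) : ZMod 3) ≠ 0 →
        (i + 4 * j < t.1.1 + 4 * t.1.2 ∨
          (i + 4 * j = t.1.1 + 4 * t.1.2 ∧ i / 2 + j ≤ t.1.1 / 2 + t.1.2))) := by
    intro t
    obtain ⟨ha, hb⟩ := hI t.1 t.2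
    obtain ⟨g, hg, hg1, hg2⟩ := hTri D r s t.1.1 t.1.2 hD hr hs ha hb
    obtain ⟨G, hG, _, hGe⟩ := hLif r s g hg
    refine ⟨Gi (r + 1) G, hn ▸ sym_Gi hG, ?_, ?_⟩
    · rw [ev_Gi D hG, hGe _ _ _ hD0]
      exact hg1
    · intro i j hij
      apply hg2
      rw [← hGe _ _ _ hD0, ← ev_Gi D hG]
      exact hij
  choose G hS hd hM using h1
  let M : Matrix I I ℤ := Matrix.of fun t u => evTb D 1 (G t) u.1.1 u.1.2
  have hdet : ((M.det : ℤ) : ZMod 3) ≠ 0 := by
    refine unit_det (fun t : I => t.1.1 + 4 * t.1.2) (fun t : I => t.1.1 / 2 + t.1.2) ?_ M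
      (fun t => hd t) (fun t u htu => hM t _ _ htu)
    intro t u h2 h3
    apply Subtype.ext
    apply Prod.ext
    · omega
    · omega
  let e : Fin N ≃ I := (I.equivFinOfCardEq hN).symm
  refine ⟨fun k => G (e k), fun l => (e l).1, fun k => hS (e k), ?_⟩
  have h2 : (Matrix.of fun k l => evTb D 1 (G (e k)) ((e l).1).1 ((e l).1).2) =
    M.submatrix e e := rfl
  rw [h2, Matrix.det_submatrix_equiv_self]
  intro h3
  exact hdet ((ZMod.intCast_zmod_eq_zero_iff_dvd _ 3).2 (by exact_mod_cast h3))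

/-- Module BASE. -/
theorem hBASE : StBASE := by
  intro hTri hLif hCnt D hD n hn
  rcases Nat.lt_or_ge n 4 with h4 | h4
  · have h3 : n = 3 := by omega
    subst h3
    have h0 : DDg de3 3 = 0 := by decide
    haveI : IsEmpty (Fin (DDg de3 3)) := by
      rw [h0]
      infer_instance
    refine ⟨fun k => isEmptyElim k, fun k => isEmptyElim k, fun k => isEmptyElim k, ?_⟩
    rw [Matrix.det_isEmpty]
    norm_num
  · rcases Nat.even_or_odd' n with ⟨k, hk | hk⟩
    · subst hk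
      refine core D (k - 1) (k - 1) _ _ hD (by omega) (by omega) _ ?_ (hCnt.1 k (by omega))
        (by omega) hTri hLif
      intro t ht
      exact (Finset.mem_filter.1 ht).2
    · subst hk
      refine core D k (k - 1) _ _ hD (by omega) (by omega) _ ?_ (hCnt.2 k (by omega)) (by omega)
        hTri hLif
      intro t ht
      exact (Finset.mem_filter.1 ht).2

end Pool.Agent.Helper29.TA
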